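import Pool.Agent.Helper980.Polar.Gch
import Pool.Agent.Helper669.VFinal

set_option autoImplicit false

/-!
# The Prikry-type forcing and the polarized relation in the sense of `Helper669.V`
-/

namespace Pool.Agent.Y582.Neg

open Cardinal Pool.Agent.Helper669.Forcing Pool.Agent.Helper669.K Pool.Agent.Helper669.U
  Pool.Agent.Helper669.V
open Pool.Agent.Helper980.Prikry (Cond)
open Pool.Agent.Helper980.Polar (Lam)

/-- a set of full size is unbounded -/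
theorem unbounded_of_hasFullSize {P : Type} [Preorder P] {κ : Cardinal.{0}}
    (A : κ.ord.ToType → Set P) (p : P) (h : p ∈ HasFullSize A) :
    ∀ t ≤ p, ∀ b, ∃ s ≤ t, ∃ a, b ≤ a ∧ s ∈ meets (A a) := by
  classical
  intro t ht b
  by_contra hcon
  push Not at hcon
  have hν : #(Set.Iio b) < #(κ.ord.ToType) := by
    rw [mk_ord_toType]
    exact Cardinal.mk_Iio_toType_ord_lt b
  obtain ⟨g⟩ : Nonempty ((#(Set.Iio b)).out ≃ Set.Iio b) := by
    rw [← Cardinal.eq, mk_out]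
  refine h _ hν t ht (mem_fex.2 fun q _ => ⟨q, le_rfl, fun x y => {_q | (g x : κ.ord.ToType) = y},
    ⟨fun x => mem_fex.2 fun r _ => ⟨r, le_rfl, g x, meets_of_mem rfl⟩, fun x y y' =>
      mem_fimp.2 fun r _ hr => ⟨r, le_rfl, ?_⟩⟩, ?_⟩)
  · obtain ⟨_, _, _, h1, _⟩ := hr.1 r le_rfl
    obtain ⟨_, _, _, h2, _⟩ := hr.2 r le_rfl
    have h1' : (g x : κ.ord.ToType) = y := h1
    have h2' : (g x : κ.ord.ToType) = y' := h2
    exact h1'.symm.trans h2'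
  · intro y
    refine mem_fimp.2 fun r hr hry => ?_
    have hy : y < b := by
      by_contra hyb
      exact hcon r (hr.trans (by assumption)) y (not_lt.1 hyb) hry
    refine ⟨r, le_rfl, mem_fex_of_mem (g.symm ⟨y, hy⟩) (down_meets _) (meets_of_mem ?_)⟩
    show (g (g.symm ⟨y, hy⟩) : κ.ord.ToType) = y
    rw [Equiv.apply_symm_apply]

variable {mu : Cardinal.{0}} {S C : Type} [Nonempty C]

/-- the main density argument -/
theorem core (h0 : ℵ₀ ≤ mu) (hC : #C ≤ mu) {I : Type} (hI : #I = mu)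
    (A : Lam mu → Set (Cond mu S C)) (B : S → Set (Cond mu S C)) (r : Cond mu S C)
    (hA : r ∈ HasFullSize A) (hB : r ∈ SameSize (K := I) B) (c : C)
    (t : Cond mu S C) (ht : t ≤ r) :
    ∃ s ≤ t, ∃ ξ y, ξ < s.top ∧ y ∈ s.a ∧ s.f ξ y = c ∧ s ∈ meets (A ξ) ∧
      s ∈ meets (B y) := by
  classical
  obtain ⟨t1, ht1, R, hR1, hR2, hR3⟩ := mem_fex.1 hB t ht
  obtain ⟨t2, ht2, f, hf⟩ := Pool.Agent.Helper980.Prikry.decide_fun' h0 hC (A := I) hI.le R t1 hR1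
  have hinj : Function.Injective f := by
    intro i i' hii
    obtain ⟨_, _, h3⟩ := mem_fimp.1 (hR2 i i' (f i)) t2 ht2 ⟨hf i, by rw [hii]; exact hf i'⟩
    exact h3
  have hcard : #(Set.range f) = mu := by rw [mk_range_eq _ hinj, hI]
  obtain ⟨t3, ht3, _, _, hpr⟩ := Pool.Agent.Helper980.Prikry.extend h0 hC t2 t2.top (Set.range f)
    hcard.le {Set.range f}
    (by rw [mk_singleton]; exact one_le_aleph0.trans h0) (by
      intro D hD
      rw [Set.mem_singleton_iff] at hD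
      subst hD
      exact ⟨subset_rfl, hcard.ge⟩)
  have hpr' : Set.range f ∈ t3.pr := hpr rfl
  obtain ⟨s, hs, a, ha, hsa⟩ := unbounded_of_hasFullSize A r hA t3
    (ht3.trans (ht2.trans (ht1.trans ht))) t3.top
  obtain ⟨s', hs', ha', _, _⟩ := Pool.Agent.Helper980.Prikry.extend h0 hC s a ∅ (by simp) ∅
    (by simp) (by simp)
  have hs3 : s' ≤ t3 := hs'.trans hs
  obtain ⟨x, ⟨i, hi⟩, hxc⟩ := hs3.2.2.2.2 _ hpr' a ha ha' c
  subst hi
  have hxa : f i ∈ s'.a := hs3.2.1 ((t3.hB _ hpr').1 ⟨i, rfl⟩)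
  obtain ⟨s1, hs1, h1⟩ := mem_fimp.1 ((hR3 (f i)).2 i) s' (hs3.trans (ht3.trans ht2))
    (down_meets _ _ (hf i) _ (hs3.trans ht3))
  refine ⟨s1, hs1.trans (hs3.trans (ht3.trans (ht2.trans ht1))), a, f i,
    ha'.trans_le hs1.1, hs1.2.1 hxa, ?_, down_meets _ _ hsa _ (hs1.trans hs'), h1⟩
  rw [hs1.2.2.2.1 a ha' (f i) hxa, hxc]

/-- the generic function takes the value `c` at `(x, y)` -/
def gen (x : Lam mu) (y : S) (c : C) : Set (Cond mu S C) :=
  {p | x < p.top ∧ y ∈ p.a ∧ p.f x y = c}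

theorem gen_unique {x : Lam mu} {y : S} {c c' : C} {p : Cond mu S C}
    (h : p ∈ meets (gen x y c)) (h' : p ∈ meets (gen x y c')) : c = c' := by
  obtain ⟨r, hr, s, hs, hrs⟩ := h p le_rfl
  obtain ⟨r', hr', s', hs', hrs'⟩ := h' r hr
  have h1 : r'.f x y = c := by
    rw [(hr'.trans hrs).2.2.2.1 x hs.1 y hs.2.1]
    exact hs.2.2
  have h2 : r'.f x y = c' := by
    rw [hrs'.2.2.2.1 x hs'.1 y hs'.2.1]
    exact hs'.2.2
  rw [← h1, h2]

theorem not_polarizedRel (h0 : ℵ₀ ≤ mu) (hC : #C ≤ mu) {I : Type} (hI : #I = mu)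
    (c0 c1 : C) (hc : c0 ≠ c1) (p : Cond mu S C) :
    p ∈ fnot (PolarizedRel (Cond mu S C) (Lam mu) S I) := by
  intro q _ hq
  obtain ⟨q1, _, A, h1⟩ := mem_fex.1 (hq fun x y => gen x y c1) q le_rfl
  obtain ⟨q2, _, B, hA, hB, h2⟩ := mem_fex.1 h1 q1 le_rfl
  obtain ⟨r, hr, h3⟩ := Pool.Agent.Helper669.K.mem_for'.1 h2 q2 le_rfl
  rcases h3 with h3 | h3
  · obtain ⟨s, hs, ξ, y, k1, k2, k3, k4, k5⟩ := core h0 hC hI A B q2 hA hB c0 r hr
    obtain ⟨s', hs', h6⟩ := mem_fimp.1 (h3 ξ y) s hs ⟨k4, k5⟩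
    exact hc (gen_unique (down_meets _ _ (meets_of_mem
      (show s ∈ gen ξ y c0 from ⟨k1, k2, k3⟩)) _ hs') h6)
  · obtain ⟨s, hs, ξ, y, k1, k2, k3, k4, k5⟩ := core h0 hC hI A B q2 hA hB c1 r hr
    obtain ⟨s', hs', h6⟩ := mem_fimp.1 (h3 ξ y) s hs ⟨k4, k5⟩
    exact h6 s' le_rfl (down_meets _ _ (meets_of_mem
      (show s ∈ gen ξ y c1 from ⟨k1, k2, k3⟩)) _ hs')

end Pool.Agent.Y582.Neg
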