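import Pool.Agent.Y582.Neg

set_option autoImplicit false

/-!
# GCH and cardinals in the extension by the Prikry-type forcing
-/

namespace Pool.Agent.Y582.Neg

open Cardinal Pool.Agent.Helper669.Forcing Pool.Agent.Helper669.K Pool.Agent.Helper669.U
  Pool.Agent.Helper669.V
open Pool.Agent.Helper980.Prikry (Cond)
open Pool.Agent.Helper980.Polar (Lam)

variable {mu : Cardinal.{0}} {S C : Type} [Nonempty C]

theorem cc [Nonempty S] (h0 : ℵ₀ ≤ mu) (hC : #C ≤ mu) (h2 : 2 ^ mu = Order.succ mu)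
    (ι : Type) (f : ι → Cond mu S C) (hι : Order.succ (Order.succ mu) ≤ #ι) :
    ∃ i j, i ≠ j ∧ ∃ r, r ≤ f i ∧ r ≤ f j := by
  by_contra hcon
  push Not at hcon
  have hinc : ∀ i j, i ≠ j → ¬ ∃ r, r ≤ f i ∧ r ≤ f j := by
    rintro i j hij ⟨r, h1, h2⟩
    exact hcon i j hij r h1 h2
  have hinj : Function.Injective f := by
    intro i j hij
    by_contra hne
    exact hinc i j hne ⟨f i, le_rfl, hij.le⟩
  have h3 := Pool.Agent.Helper980.Prikry.chain h0 hC h2 (Set.range f) (by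
    rintro _ ⟨i, rfl⟩ _ ⟨j, rfl⟩ hne
    exact hinc i j fun h => hne (by rw [h]))
  rw [mk_range_eq f hinj] at h3
  exact absurd (hι.trans h3) (not_le.2 (Order.lt_succ _))

theorem noNew (h0 : ℵ₀ ≤ mu) (hC : #C ≤ mu) (A Y : Type) (hA : #A ≤ mu)
    (R : A → Y → Set (Cond mu S C)) (p : Cond mu S C) (hp : p ∈ IsFun R) :
    ∃ q ≤ p, ∃ f : A → Y, ∀ a, q ∈ meets (R a (f a)) :=
  Pool.Agent.Helper980.Prikry.decide_fun' h0 hC hA R p hp

theorem cards [Nonempty S] (h0 : ℵ₀ ≤ mu) (hC : #C ≤ mu) (h2 : 2 ^ mu = Order.succ mu)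
    (p : Cond mu S C) : p ∈ CardinalsPreserved.{0, 0} (Cond mu S C) :=
  Pool.Agent.Helper980.G.cardinals_preserved (θ := mu) (κ := Order.succ mu)
    (h0.trans (Order.le_succ mu)) (fun _ h => Order.succ_le_of_lt h)
    (Pool.Agent.Helper980.Prikry.chain h0 hC h2) (noNew h0 hC) p

theorem powOnto_small (h0 : ℵ₀ ≤ mu) (hC : #C ≤ mu) {ν χ : Cardinal.{0}} (hν : ν ≤ mu)
    (hχ : 2 ^ ν ≤ χ) (q : Cond mu S C) : q ∈ PowOnto (Cond mu S C) ν χ := by
  classical
  have hcard : #(Set ν.ord.ToType) ≤ #(χ.ord.ToType) := by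
    rw [Cardinal.mk_set, Cardinal.mk_ord_toType, Cardinal.mk_ord_toType]
    exact hχ
  obtain ⟨j⟩ := hcard
  have hsurj : Function.Surjective (Function.invFun j) := Function.invFun_surjective j.injective
  refine mem_fex.2 fun q' _ => ⟨q', le_rfl, fun i => chk (Function.invFun j i), fun X => ?_⟩
  refine mem_fex.2 fun q'' _ => ?_
  obtain ⟨r, hr, hD⟩ := Pool.Agent.Helper980.G.decide_subset (p := q'') X
    (fun Y R hR => noNew h0 hC _ Y (by rwa [mk_ord_toType]) R q'' hR)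
  obtain ⟨i, hi⟩ := hsurj {x | r ∈ meets (X x)}
  refine ⟨r, hr, i, ?_, ?_⟩
  · intro y
    refine mem_fimp.2 fun q1 hq1 h1 => ⟨q1, le_rfl, ?_⟩
    obtain ⟨_, _, s, hs, _⟩ := h1 q1 le_rfl
    have hy : y ∈ Function.invFun j i := hs
    rw [hi] at hy
    exact down_meets _ _ hy _ hq1
  · intro y
    refine mem_fimp.2 fun q1 hq1 h1 => ⟨q1, le_rfl, ?_⟩
    rcases hD y with h | h
    · apply meets_of_mem
      show y ∈ Function.invFun j i
      rw [hi]
      exact h
    · exact absurd h1 (h q1 hq1)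

theorem gch [Nonempty S] (h0 : ℵ₀ ≤ mu) (hC : #C ≤ mu)
    (hG : ∀ ν : Cardinal.{0}, ℵ₀ ≤ ν → 2 ^ ν = Order.succ ν)
    (hS : #S ≤ Order.succ (Order.succ mu)) (p : Cond mu S C) : p ∈ ForcesGCH (Cond mu S C) := by
  have h2 := hG mu h0
  have hs0 : ℵ₀ ≤ Order.succ mu := h0.trans (Order.le_succ mu)
  intro ν hν
  refine mem_fex_of_mem (Order.succ ν) (down_fand (down_fex _) (gch_down_coll _ _))
    ⟨?_, gch_ground _ _ (fun ρ hρ => Order.lt_succ_iff.1 hρ) p⟩
  rcases le_or_gt ν mu with h | h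
  · exact powOnto_small h0 hC h (hG ν hν).le p
  · have hν' : Order.succ mu ≤ ν := Order.succ_le_of_lt h
    obtain ⟨F, hF⟩ := exists_nice_enum (Q := Cond mu S C) (χ := Order.succ (Order.succ mu))
      (ν := ν) (μ := Order.succ ν) (cc h0 hC h2) (by
        rw [← hG ν hν]
        refine card_nice' hν ?_ (Order.succ_le_succ hν')
        refine (Pool.Agent.Helper980.Prikry.mk_cond h0 hC h2 hS).trans ?_
        rw [hG ν hν]
        exact Order.succ_le_succ hν') (Order.succ_ne_bot ν)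
    exact powOnto_of_enum hF p

theorem staysRegular [Nonempty S] (h0 : ℵ₀ ≤ mu) (hC : #C ≤ mu) (h2 : 2 ^ mu = Order.succ mu)
    {κ : Cardinal.{0}} (hκ : κ.IsRegular) (p : Cond mu S C) :
    p ∈ StaysRegular (Cond mu S C) κ := by
  rcases le_or_gt κ (Order.succ mu) with h | h
  · refine staysRegular_proj hκ (fun N D hN hd hdense q => ?_)
      id (fun a b h => h) (fun a q' h => ⟨q', h, le_rfl⟩) (fun q' => ⟨q', le_rfl⟩) p
    exact Pool.Agent.Helper980.Prikry.meet h0 hC (Order.lt_succ_iff.1 (hN.trans_le h)) D hd q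
      (fun n r _ => hdense n r)
  · exact staysRegular_of_cc' hκ
      (fun ι f hf => cc h0 hC h2 ι f ((Order.succ_le_of_lt h).trans hf)) p

/-- over every model of GCH, the failure of the polarized relation can be forced -/
theorem main (hG : ∀ ν : Cardinal.{0}, ℵ₀ ≤ ν → 2 ^ ν = Order.succ ν) {mu : Cardinal.{0}}
    (h0 : ℵ₀ ≤ mu) :
    ∃ (P : Type) (_ : Preorder P), Nonempty P ∧ ∀ p : P,
      p ∈ CardinalsPreserved.{0, 0} P ∧ p ∈ ForcesGCH P ∧
      (∀ κ : Cardinal.{0}, κ.IsRegular → p ∈ StaysRegular P κ) ∧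
      (∀ ν : Cardinal.{0}, p ∈ CollapsedTo P ν (Order.succ ν)) ∧
      p ∈ fnot (PolarizedRel P (Order.succ mu).ord.ToType
        (Order.succ (Order.succ mu)).ord.ToType mu.ord.ToType) := by
  have hSne : Nonempty (Order.succ (Order.succ mu)).ord.ToType := by
    rw [← mk_ne_zero_iff, mk_ord_toType]
    exact (Order.succ_ne_bot _)
  have h2 : (2 : Cardinal.{0}) ^ mu = Order.succ mu := hG mu h0
  have hB : #Bool ≤ mu := by
    refine le_trans ?_ h0
    simp
  refine ⟨Cond mu (Order.succ (Order.succ mu)).ord.ToType Bool, inferInstance,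
    Pool.Agent.Helper980.Prikry.nonempty_cond h0, fun p => ⟨cards h0 hB h2 p,
      gch h0 hB hG (by rw [mk_ord_toType]) p, fun κ hκ => staysRegular h0 hB h2 hκ p,
      fun ν => gch_ground _ _ (fun ρ hρ => Order.lt_succ_iff.1 hρ) p, ?_⟩⟩
  exact not_polarizedRel h0 hB (I := mu.ord.ToType) (mk_ord_toType _) false true (by simp) p

end Pool.Agent.Y582.Neg
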